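import Pool.Agent.H95.FA.Stm

set_option autoImplicit false

/-!
# Project FA, module GRO: integral values of Laurent polynomials in powers of the golden ratio
-/

namespace Pool.Agent.H93.FA

open Real (goldenRatio)
open Pool.Agent.H95.FA

theorem t_GRO : S_GRO := by
  intro m α N
  classical
  have hφ : (1 : ℝ) < goldenRatio := Real.one_lt_goldenRatio
  have hφ0 : (0 : ℝ) < goldenRatio := by linarith
  obtain ⟨A, hA⟩ : ∃ A : ℝ, A = ∑ j : Fin m, |α j| := ⟨_, rfl⟩
  have hA0 : 0 ≤ A := by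
    rw [hA]
    exact Finset.sum_nonneg fun j _ => abs_nonneg _
  by_cases hex : ∃ j : Fin m, (j : ℕ) < N ∧ α j ≠ 0
  · -- the first index
    obtain ⟨j₀, ⟨hj₀, hα₀⟩, hmin⟩ : ∃ j₀ : Fin m, ((j₀ : ℕ) < N ∧ α j₀ ≠ 0) ∧
        ∀ j : Fin m, j < j₀ → α j = 0 := by
      obtain ⟨j₀, hj₀, hmin⟩ := WellFounded.has_min (wellFounded_lt (α := Fin m))
        {j : Fin m | (j : ℕ) < N ∧ α j ≠ 0} hex
      refine ⟨j₀, hj₀, fun j hj => ?_⟩
      by_contra hne
      refine hmin j ⟨?_, hne⟩ hj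
      have h1 : (j : ℕ) < (j₀ : ℕ) := hj
      exact h1.trans hj₀.1
    obtain ⟨a, ha⟩ : ∃ a : ℝ, a = |α j₀| := ⟨_, rfl⟩
    have ha0 : 0 < a := by
      rw [ha]
      exact abs_pos.2 hα₀
    obtain ⟨b, hb⟩ : ∃ b : ℝ, b = goldenRatio ^ (1 / 2 : ℝ) := ⟨_, rfl⟩
    have hb1 : 1 < b := by
      rw [hb]
      exact Real.one_lt_rpow hφ (by norm_num)
    have hbs : ∀ s : ℕ, goldenRatio ^ ((s : ℝ) / 2) = b ^ s := by
      intro s
      rw [hb, ← Real.rpow_natCast, ← Real.rpow_mul hφ0.le]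
      congr 1
      ring
    have hb2 : ∀ s : ℕ, (goldenRatio : ℝ) ^ s = b ^ s * b ^ s := by
      intro s
      rw [← hbs, ← Real.rpow_add hφ0, ← Real.rpow_natCast]
      congr 1
      ring
    obtain ⟨s₀, hs₀⟩ := pow_unbounded_of_one_lt (2 / a + A) hb1
    refine ⟨s₀, 0, fun s hs d hd => Or.inr ?_⟩
    have hy : 2 / a + A ≤ b ^ s := hs₀.le.trans (pow_le_pow_right₀ hb1.le hs)
    have hy0 : 0 < b ^ s := pow_pos (by linarith) s
    -- the exponent
    obtain ⟨e, he⟩ : ∃ e : ℕ, (e : ℤ) = (N : ℤ) - ((j₀ : ℕ) : ℤ) - 1 :=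
      ⟨N - (j₀ : ℕ) - 1, by omega⟩
    obtain ⟨F, hF⟩ : ∃ F : ℝ, F = goldenRatio ^ (s * e) := ⟨_, rfl⟩
    have hF1 : 1 ≤ F := by
      rw [hF]
      exact one_le_pow₀ hφ.le
    have hz : goldenRatio ^ ((s : ℤ) * ((N : ℤ) - ((j₀ : ℕ) : ℤ))) = goldenRatio ^ s * F := by
      have h1 : (s : ℤ) * ((N : ℤ) - ((j₀ : ℕ) : ℤ)) = ((s + s * e : ℕ) : ℤ) := by
        push_cast
        rw [he]
        ring
      rw [h1, zpow_natCast, pow_add, hF]
    have hsplit : (d : ℝ) = goldenRatio ^ s * F * α j₀ + ∑ j ∈ Finset.univ.erase j₀,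
        goldenRatio ^ ((s : ℤ) * ((N : ℤ) - ((j : ℕ) : ℤ))) * α j := by
      rw [hd, ← Finset.add_sum_erase _ _ (Finset.mem_univ j₀), hz]
    have hrest : |∑ j ∈ Finset.univ.erase j₀,
        goldenRatio ^ ((s : ℤ) * ((N : ℤ) - ((j : ℕ) : ℤ))) * α j| ≤ F * A := by
      refine (Finset.abs_sum_le_sum_abs _ _).trans ?_
      rw [hA, Finset.mul_sum]
      refine le_trans (Finset.sum_le_sum fun j hj => ?_)
        (Finset.sum_le_sum_of_subset_of_nonneg (Finset.subset_univ (Finset.univ.erase j₀))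
          fun j _ _ => mul_nonneg (by linarith) (abs_nonneg _))
      rcases lt_or_ge j j₀ with h1 | h1
      · rw [hmin j h1]
        simp
      · have h2 : j ≠ j₀ := Finset.ne_of_mem_erase hj
        have h3 : (j₀ : ℕ) < (j : ℕ) := lt_of_le_of_ne h1 (fun h => h2 (Fin.ext h.symm))
        rw [abs_mul, abs_of_pos (zpow_pos hφ0 _)]
        refine mul_le_mul_of_nonneg_right ?_ (abs_nonneg _)
        rw [hF, ← zpow_natCast]
        refine zpow_le_zpow_right₀ hφ.le ?_
        push_cast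
        refine mul_le_mul_of_nonneg_left ?_ (Int.natCast_nonneg s)
        rw [he]
        omega
    have hd0 : (0 : ℝ) ≤ d := Nat.cast_nonneg d
    have hmain : F * (goldenRatio ^ s * a - A) ≤ d := by
      have h1 : goldenRatio ^ s * F * a = |goldenRatio ^ s * F * α j₀| := by
        rw [abs_mul, abs_of_pos (mul_pos (pow_pos hφ0 s) (by linarith)), ha]
      have h2 : |goldenRatio ^ s * F * α j₀| ≤ (d : ℝ) + F * A := by
        have h3 : goldenRatio ^ s * F * α j₀ = (d : ℝ) - ∑ j ∈ Finset.univ.erase j₀,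
            goldenRatio ^ ((s : ℤ) * ((N : ℤ) - ((j : ℕ) : ℤ))) * α j := by
          rw [hsplit]
          ring
        rw [h3]
        refine (abs_sub _ _).trans ?_
        rw [abs_of_nonneg hd0]
        linarith
      have h4 : F * (goldenRatio ^ s * a - A) = goldenRatio ^ s * F * a - F * A := by ring
      rw [h4, h1]
      linarith
    have h5 : b ^ s ≤ goldenRatio ^ s * a - A := by
      rw [hb2]
      have h6 : 2 / a ≤ b ^ s := by linarith
      have h7 : 2 ≤ b ^ s * a := by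
        rwa [div_le_iff₀ ha0] at h6
      have h8 : b ^ s * 2 ≤ b ^ s * (b ^ s * a) := mul_le_mul_of_nonneg_left h7 hy0.le
      have h9 : A ≤ b ^ s := by
        have : 0 < 2 / a := by positivity
        linarith
      nlinarith
    rw [hbs]
    have h10 : 1 * (goldenRatio ^ s * a - A) ≤ F * (goldenRatio ^ s * a - A) :=
      mul_le_mul_of_nonneg_right hF1 (hy0.le.trans h5)
    linarith
  · -- all exponents are nonpositive
    push Not at hex
    refine ⟨0, ⌈A⌉₊, fun s _ d hd => Or.inl ?_⟩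
    have h1 : (d : ℝ) ≤ A := by
      rw [hd, hA]
      refine Finset.sum_le_sum fun j _ => ?_
      rcases Nat.lt_or_ge (j : ℕ) N with h | h
      · rw [hex j h]
        simp
      · refine (le_abs_self _).trans ?_
        rw [abs_mul, abs_of_pos (zpow_pos hφ0 _)]
        refine mul_le_of_le_one_left (abs_nonneg _) ?_
        refine zpow_le_one_of_nonpos₀ hφ.le ?_
        refine mul_nonpos_of_nonneg_of_nonpos (Int.natCast_nonneg s) ?_
        omega
    exact_mod_cast h1.trans (Nat.le_ceil A)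

end Pool.Agent.H93.FA
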