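import Pool.Agent.H95.FA.Stm2

set_option autoImplicit false

/-!
# Project FA, module LOW: lower bounds for a complex polynomial at powers of the golden ratio
-/

namespace Pool.Agent.H93.FA

open Polynomial Filter Topology
open Real (goldenRatio goldenConj)
open Pool.Agent.H95.FA

theorem t_LOW : S_LOW := by
  intro p
  constructor
  · intro hp
    have hφ : (1 : ℝ) < goldenRatio := Real.one_lt_goldenRatio
    have hφ0 : (0 : ℝ) < goldenRatio := by linarith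
    have hn : ∀ s : ℕ, ‖((goldenRatio : ℝ) : ℂ) ^ s‖ = goldenRatio ^ s := by
      intro s
      rw [norm_pow, Complex.norm_real, Real.norm_of_nonneg hφ0.le]
    have hlim : Tendsto (fun s : ℕ => ‖((goldenRatio : ℝ) : ℂ) ^ s‖) atTop atTop := by
      simp only [hn]
      exact tendsto_pow_atTop_atTop_of_one_lt hφ
    have hr0 : p.divX ≠ 0 := by
      intro h0
      have h1 := divX_mul_X_add p
      rw [h0, zero_mul, zero_add] at h1
      rw [← h1, natDegree_C] at hp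
      omega
    obtain ⟨c₁, hc₁, h1⟩ : ∃ c₁ : ℝ, 0 < c₁ ∧ ∀ᶠ s : ℕ in atTop,
        c₁ ≤ ‖p.divX.eval (((goldenRatio : ℝ) : ℂ) ^ s)‖ := by
      by_cases hd : 0 < p.divX.degree
      · exact ⟨1, one_pos, (Polynomial.tendsto_norm_atTop _ hd hlim).eventually_ge_atTop 1⟩
      · have h2 := eq_C_of_degree_le_zero (not_lt.1 hd)
        refine ⟨‖p.divX.coeff 0‖, norm_pos_iff.2 fun h3 => hr0 ?_, Eventually.of_forall fun s => ?_⟩
        · rw [h2, h3, C_0]
        · conv_rhs => rw [h2, eval_C]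
    have h2 : ∀ᶠ s : ℕ in atTop, 2 * ‖p.coeff 0‖ / c₁ ≤ ‖((goldenRatio : ℝ) : ℂ) ^ s‖ :=
      hlim.eventually_ge_atTop _
    obtain ⟨s₀, hs₀⟩ := eventually_atTop.1 (h1.and h2)
    refine ⟨c₁ / 2, by positivity, s₀, fun s hs => ?_⟩
    obtain ⟨h3, h4⟩ := hs₀ s hs
    rw [div_le_iff₀ hc₁] at h4
    have h5 : p.eval (((goldenRatio : ℝ) : ℂ) ^ s) =
        p.divX.eval (((goldenRatio : ℝ) : ℂ) ^ s) * ((goldenRatio : ℝ) : ℂ) ^ s + p.coeff 0 := by
      conv_lhs => rw [← divX_mul_X_add p]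
      simp
    rw [h5]
    have h6 := norm_sub_le (p.divX.eval (((goldenRatio : ℝ) : ℂ) ^ s) *
      ((goldenRatio : ℝ) : ℂ) ^ s + p.coeff 0) (p.coeff 0)
    rw [add_sub_cancel_right, norm_mul] at h6
    have h7 : c₁ * ‖((goldenRatio : ℝ) : ℂ) ^ s‖ ≤
        ‖p.divX.eval (((goldenRatio : ℝ) : ℂ) ^ s)‖ * ‖((goldenRatio : ℝ) : ℂ) ^ s‖ :=
      mul_le_mul_of_nonneg_right h3 (norm_nonneg _)
    rw [← hn s]
    linarith
  · intro hp
    have h0 : Tendsto (fun s : ℕ => ((goldenConj : ℝ) : ℂ) ^ s) atTop (𝓝 0) := by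
      refine tendsto_pow_atTop_nhds_zero_of_norm_lt_one ?_
      rw [Complex.norm_real, Real.norm_eq_abs, abs_lt]
      exact ⟨Real.neg_one_lt_goldenConj, by linarith [Real.goldenConj_neg]⟩
    have h1 : Tendsto (fun s : ℕ => ‖p.eval (((goldenConj : ℝ) : ℂ) ^ s)‖) atTop (𝓝 ‖p.eval 0‖) :=
      ((p.continuous.tendsto 0).comp h0).norm
    have h2 : 0 < ‖p.eval 0‖ := norm_pos_iff.2 hp
    obtain ⟨s₀, hs₀⟩ := eventually_atTop.1 (h1.eventually_const_le (half_lt_self h2))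
    exact ⟨‖p.eval 0‖ / 2, by positivity, s₀, hs₀⟩

end Pool.Agent.H93.FA
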